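import Mathlib

set_option autoImplicit false

/-! Cantor-Bendixson derivatives, (canonical) clopen selectors, and the space of final subsets of a
poset. -/

universe u

namespace Pool.Agent.R736.SK

/-- `S` minus the isolated points of the subspace `S`. -/
def derived {X : Type u} [TopologicalSpace X] (S : Set X) : Set X :=
  {x | x ∈ S ∧ ∀ V : Set X, IsOpen V → x ∈ V → ∃ y ∈ S, y ∈ V ∧ y ≠ x}

/-- The Cantor-Bendixson derivative `X^(α)`. -/
noncomputable def cb (X : Type u) [TopologicalSpace X] (α : Ordinal.{u}) : Set X :=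
  Ordinal.limitRecOn α Set.univ (fun _ S => derived S) (fun α _ f => ⋂ β, ⋂ h : β < α, f β h)

/-- A clopen selector of the space `X`. -/
structure IsClopenSelector {X : Type u} [TopologicalSpace X] (U : X → Set X) : Prop where
  clopen : ∀ x, IsClopen (U x)
  mem : ∀ x, x ∈ U x
  asymm : ∀ x y, x ≠ y → x ∉ U y ∨ y ∉ U x
  trans : ∀ x y, y ∈ U x → U y ⊆ U x

/-- The selector `U` is canonical: whenever `x` has height `α` (that is, `x ∈ X^(α) \ X^(α+1)`), `x`
is the only point of `U x` of height at least `α` (that is, the only point of `U x` in `X^(α)`). -/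
def IsCanonical {X : Type u} [TopologicalSpace X] (U : X → Set X) : Prop :=
  ∀ (x : X) (α : Ordinal.{u}), x ∈ cb X α → x ∉ cb X (α + 1) →
    ∀ y ∈ U x, y ∈ cb X α → y = x

/-- `X` admits a canonical clopen selector. -/
def CanonicallySkula (X : Type u) [TopologicalSpace X] : Prop :=
  ∃ U : X → Set X, IsClopenSelector U ∧ IsCanonical U

/-- Every antichain of `P` is finite. -/
def Narrow (P : Type u) [PartialOrder P] : Prop :=
  ∀ s : Set P, IsAntichain (· ≤ ·) s → s.Finite

/-- `P` contains no copy of the rationals. -/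
def OrderScattered (P : Type u) [PartialOrder P] : Prop := IsEmpty (ℚ ↪o P)

/-- The final subsets of `P`, as a subset of the product space `{0,1}^P`. -/
def FS (P : Type u) [PartialOrder P] : Set (P → Bool) :=
  {F | ∀ x y, x ≤ y → F x = true → F y = true}

section
variable {X : Type u} [TopologicalSpace X]

theorem cb_zero : cb X 0 = Set.univ := by
  rw [cb, Ordinal.limitRecOn_zero]

theorem cb_succ (α : Ordinal.{u}) : cb X (α + 1) = derived (cb X α) := by
  rw [cb, Ordinal.limitRecOn_add_one]; rfl

theorem cb_limit {α : Ordinal.{u}} (hα : Order.IsSuccLimit α) :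
    cb X α = ⋂ β, ⋂ _h : β < α, cb X β := by
  rw [cb, Ordinal.limitRecOn_limit (h := hα)]; rfl

theorem derived_subset (S : Set X) : derived S ⊆ S := fun _ hx => hx.1

theorem cb_antitone {α β : Ordinal.{u}} (h : α ≤ β) : cb X β ⊆ cb X α := by
  induction β using Ordinal.limitRecOn with
  | zero => rw [le_zero_iff.1 h]
  | add_one β ih =>
    rcases h.eq_or_lt with rfl | h1
    · exact le_rfl
    · rw [cb_succ]
      exact (derived_subset _).trans (ih (Order.lt_add_one_iff.1 h1))
  | limit β hβ ih =>
    rcases h.eq_or_lt with rfl | h1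
    · exact le_rfl
    · rw [cb_limit hβ]
      exact Set.iInter₂_subset α h1

theorem isClosed_derived [T1Space X] {S : Set X} (hS : IsClosed S) : IsClosed (derived S) := by
  rw [← isOpen_compl_iff, isOpen_iff_forall_mem_open]
  intro x hx
  by_cases hxS : x ∈ S
  · have : ∃ V : Set X, IsOpen V ∧ x ∈ V ∧ ∀ y ∈ S, y ∈ V → y = x := by
      by_contra hcon
      apply hx
      refine ⟨hxS, fun V hV hxV => ?_⟩
      by_contra h2
      exact hcon ⟨V, hV, hxV, fun y hy hyV => by
        by_contra h3
        exact h2 ⟨y, hy, hyV, h3⟩⟩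
    obtain ⟨V, hV, hxV, h1⟩ := this
    refine ⟨V, fun y hyV hy => ?_, hV, hxV⟩
    have hyx := h1 y hy.1 hyV
    subst hyx
    obtain ⟨z, hz, hzV, hne⟩ := hy.2 V hV hyV
    exact hne (h1 z hz hzV)
  · exact ⟨Sᶜ, fun y hy h2 => hy h2.1, hS.isOpen_compl, hxS⟩

theorem isClosed_cb [T1Space X] (α : Ordinal.{u}) : IsClosed (cb X α) := by
  induction α using Ordinal.limitRecOn with
  | zero => rw [cb_zero]; exact isClosed_univ
  | add_one α ih => rw [cb_succ]; exact isClosed_derived ih
  | limit α hα ih =>
    rw [cb_limit hα]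
    exact isClosed_iInter fun β => isClosed_iInter fun h => ih β h

/-- the least derivative missing a point is a successor -/
theorem exists_height {x : X} {γ : Ordinal.{u}} (h : x ∉ cb X γ) :
    ∃ α, x ∈ cb X α ∧ x ∉ cb X (α + 1) := by
  by_contra hcon
  push Not at hcon
  apply h
  clear h
  induction γ using Ordinal.limitRecOn with
  | zero => rw [cb_zero]; trivial
  | add_one α ih => exact hcon α ih
  | limit α hα ih =>
    rw [cb_limit hα]
    exact Set.mem_iInter₂.2 fun β h => ih β h

end

end Pool.Agent.R736.SK
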