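import Mathlib

set_option autoImplicit false

/-! Closure points below `ω₁` of a function of two countable ordinals. -/

open Ordinal Set Order

namespace Pool.Agent.R736.SK

theorem countable_Iic {β : Ordinal.{0}} (hβ : β < ω₁) : Countable (Set.Iic β) := by
  have h1 : (Set.Iio (succ β)).Countable := by
    rw [← Cardinal.le_aleph0_iff_set_countable, Cardinal.mk_Iio_ordinal, ← Cardinal.lift_aleph0.{1, 0},
      Cardinal.lift_le]
    have h2 : succ β < ω₁ := by
      exact (Cardinal.isSuccLimit_omega 1).succ_lt hβ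
    rw [← Cardinal.ord_aleph, Cardinal.lt_ord, ← Cardinal.succ_aleph0] at h2
    exact Order.lt_succ_iff.1 h2
  have h2 : Set.Iio (succ β) = Set.Iic β := by
    ext x; simp [Order.lt_succ_iff]
  rw [h2] at h1
  exact h1.to_subtype

theorem exists_closure (f : Ordinal.{0} → Ordinal.{0} → Ordinal.{0})
    (hf : ∀ a < ω₁, ∀ c < ω₁, f a c < ω₁) {a0 : Ordinal.{0}} (ha0 : a0 < ω₁) :
    ∃ b < ω₁, a0 < b ∧ (∀ a < b, succ a < b) ∧ ∀ a < b, ∀ c < b, f a c < b := by
  have hlim : ∀ x < ω₁, succ x < ω₁ := fun x hx => (Cardinal.isSuccLimit_omega 1).succ_lt hx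
  let F : Ordinal.{0} → Ordinal.{0} := fun β =>
    max (succ β) (⨆ p : Set.Iic β × Set.Iic β, succ (f p.1 p.2))
  have hF : ∀ β < ω₁, F β < ω₁ := by
    intro β hβ
    have := countable_Iic hβ
    refine max_lt (hlim β hβ) (Ordinal.iSup_lt_omega_one fun p => ?_)
    exact hlim _ (hf _ (lt_of_le_of_lt p.1.2 hβ) _ (lt_of_le_of_lt p.2.2 hβ))
  let g : ℕ → Ordinal.{0} := fun n => F^[n] (succ a0)
  have hg1 : ∀ n, g (n + 1) = F (g n) := fun n => Function.iterate_succ_apply' F n _
  have hg : ∀ n, g n < ω₁ := by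
    intro n
    induction n with
    | zero => exact hlim _ ha0
    | succ n ih => rw [hg1]; exact hF _ ih
  have hmono : StrictMono g := by
    refine strictMono_nat_of_lt_succ fun n => ?_
    rw [hg1]
    exact lt_of_lt_of_le (Order.lt_succ _) (le_max_left _ _)
  have hb : ⨆ n, g n < ω₁ := Ordinal.iSup_lt_omega_one hg
  have hle : ∀ n, g n ≤ ⨆ n, g n := fun n => Ordinal.le_iSup g n
  have hlt : ∀ n, g n < ⨆ n, g n := fun n => lt_of_lt_of_le (hmono (Nat.lt_succ_self n)) (hle _)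
  refine ⟨⨆ n, g n, hb, lt_of_lt_of_le (Order.lt_succ a0) (hle 0), ?_, ?_⟩
  · intro a ha
    obtain ⟨n, hn⟩ := Ordinal.lt_iSup_iff.1 ha
    exact lt_of_le_of_lt (Order.succ_le_of_lt hn) (hlt n)
  · intro a ha c hc
    obtain ⟨n, hn⟩ := Ordinal.lt_iSup_iff.1 ha
    obtain ⟨m, hm⟩ := Ordinal.lt_iSup_iff.1 hc
    let k := max n m
    have h1 : a ≤ g k := hn.le.trans (hmono.monotone (le_max_left _ _))
    have h2 : c ≤ g k := hm.le.trans (hmono.monotone (le_max_right _ _))
    have h3 : succ (f a c) ≤ g (k + 1) := by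
      rw [hg1]
      refine le_trans ?_ (le_max_right _ _)
      have := countable_Iic (hg k)
      exact Ordinal.le_iSup (fun p : Set.Iic (g k) × Set.Iic (g k) => succ (f p.1 p.2))
        (⟨a, h1⟩, ⟨c, h2⟩)
    exact lt_of_lt_of_le (Order.lt_succ _) (h3.trans (hle _))

end Pool.Agent.R736.SK
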