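import Mathlib
import Pool.Agent.R736.SK.Defs
import Pool.Agent.R736.SK.Ord

set_option autoImplicit false

/-! The closed subspace `K0` of `(ω₁+1)^3` has no canonical clopen selector. -/

open Ordinal Set Order Topology

namespace Pool.Agent.R736.SK

/-- `{(a,b,ω₁) : a ≤ b ≤ ω₁} ∪ {(a,a,c) : a ≤ c ≤ ω₁}` -/
def K0 : Set (Ordinal.{0} × Ordinal.{0} × Ordinal.{0}) :=
  {p | (p.1 ≤ p.2.1 ∧ p.2.1 ≤ ω₁ ∧ p.2.2 = ω₁) ∨ (p.1 = p.2.1 ∧ p.2.1 ≤ p.2.2 ∧ p.2.2 ≤ ω₁)}

theorem memA (q : Ordinal.{0} × Ordinal.{0}) :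
    ((min q.1 (min q.2 ω₁), min q.2 ω₁, (ω₁ : Ordinal.{0})) :
      Ordinal.{0} × Ordinal.{0} × Ordinal.{0}) ∈ K0 :=
  Or.inl ⟨min_le_right _ _, min_le_right _ _, rfl⟩

theorem memB (q : Ordinal.{0} × Ordinal.{0}) :
    ((min q.1 (min q.2 ω₁), min q.1 (min q.2 ω₁), min q.2 ω₁) :
      Ordinal.{0} × Ordinal.{0} × Ordinal.{0}) ∈ K0 :=
  Or.inr ⟨rfl, min_le_right _ _, min_le_right _ _⟩

section
variable {X : Type} [TopologicalSpace X] (h : K0 ≃ₜ X)

/-- coordinates -/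
noncomputable def co (p : X) : Ordinal.{0} × Ordinal.{0} × Ordinal.{0} := (h.symm p).1

noncomputable def xx (q : Ordinal.{0} × Ordinal.{0}) : X := h ⟨_, memA q⟩
noncomputable def yy (q : Ordinal.{0} × Ordinal.{0}) : X := h ⟨_, memB q⟩

theorem continuous_co : Continuous (co h) := continuous_subtype_val.comp h.symm.continuous

theorem continuous_xx : Continuous (xx h) := by
  refine h.continuous.comp (Continuous.subtype_mk ?_ _)
  fun_prop

theorem continuous_yy : Continuous (yy h) := by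
  refine h.continuous.comp (Continuous.subtype_mk ?_ _)
  fun_prop

theorem co_inj {p q : X} (hpq : co h p = co h q) : p = q := by
  have := Subtype.ext hpq
  exact h.symm.injective this

theorem co_mem (p : X) : co h p ∈ K0 := (h.symm p).2

theorem co_xx {a b : Ordinal.{0}} (hab : a ≤ b) (hb : b ≤ ω₁) : co h (xx h (a, b)) = (a, b, ω₁) := by
  rw [co, xx, Homeomorph.symm_apply_apply]
  simp only [min_eq_left hb, min_eq_left hab]

theorem co_yy {a c : Ordinal.{0}} (hac : a ≤ c) (hc : c ≤ ω₁) : co h (yy h (a, c)) = (a, a, c) := by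
  rw [co, yy, Homeomorph.symm_apply_apply]
  simp only [min_eq_left hc, min_eq_left hac]

theorem xx_eq_yy {a : Ordinal.{0}} (ha : a ≤ ω₁) : xx h (a, a) = yy h (a, ω₁) := by
  apply co_inj h
  rw [co_xx h le_rfl ha, co_yy h ha le_rfl]

include h

/-- every point has a height -/
theorem height (p : X) : ∃ α, p ∈ cb X α ∧ p ∉ cb X (α + 1) := by
  have key : ∀ t : Ordinal.{0} × Ordinal.{0} × Ordinal.{0}, ∀ p : X, co h p = t →
      ∃ γ : Ordinal.{0}, p ∉ cb X γ := by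
    intro t
    induction t using WellFoundedLT.induction with
    | _ t ih =>
      intro p hp
      have hq : ∀ q : X, ∃ γ : Ordinal.{0}, co h q < t → q ∉ cb X γ := by
        intro q
        by_cases hlt : co h q < t
        · obtain ⟨γ, hγ⟩ := ih _ hlt q rfl
          exact ⟨γ, fun _ => hγ⟩
        · exact ⟨0, fun h' => absurd h' hlt⟩
      choose g hg using hq
      refine ⟨(⨆ q, g q) + 1, fun hmem => ?_⟩
      rw [cb_succ] at hmem
      have hopen : IsOpen {q : X | co h q ≤ t} := by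
        have h1 : {q : X | co h q ≤ t} = (co h) ⁻¹' (Set.Iio (t.1 + 1) ×ˢ
            (Set.Iio (t.2.1 + 1) ×ˢ Set.Iio (t.2.2 + 1))) := by
          ext q
          simp only [Set.mem_ofPred_eq, Set.mem_preimage, Set.mem_prod, Set.mem_Iio,
            Order.lt_add_one_iff]
          rfl
        rw [h1]
        exact (isOpen_Iio.prod (isOpen_Iio.prod isOpen_Iio)).preimage (continuous_co h)
      obtain ⟨q, hq1, hq2, hne⟩ := hmem.2 _ hopen (le_of_eq hp)
      have hlt : co h q < t := lt_of_le_of_ne hq2 fun h3 => hne (co_inj h (h3.trans hp.symm))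
      exact hg q hlt (cb_antitone (Ordinal.le_iSup g q) hq1)
  obtain ⟨γ, hγ⟩ := key _ p rfl
  exact exists_height hγ

/-- transfer of the height from `(a,b,ω₁)` to `(a,a,b)` -/
theorem transfer (α : Ordinal.{0}) : ∀ a b : Ordinal.{0}, a < b → b ≤ ω₁ →
    xx h (a, b) ∈ cb X α → yy h (a, b) ∈ cb X α := by
  induction α using Ordinal.limitRecOn with
  | zero => intro a b _ _ _; rw [cb_zero]; trivial
  | limit α hα ih =>
    intro a b hab hb hx
    rw [cb_limit hα] at hx ⊢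
    rw [Set.mem_iInter₂] at hx ⊢
    exact fun β hβ => ih β hβ a b hab hb (hx β hβ)
  | add_one α ih =>
    intro a b hab hb hx
    rw [cb_succ] at hx ⊢
    refine ⟨ih a b hab hb hx.1, fun W hW hmem => ?_⟩
    let V : Set X := {p | (co h p).1 < (co h p).2.1} ∩ {p | yy h ((co h p).1, (co h p).2.1) ∈ W}
    have hV : IsOpen V := by
      have h1 : Continuous (fun p : X => (co h p).1) := continuous_fst.comp (continuous_co h)
      have h2 : Continuous (fun p : X => (co h p).2.1) :=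
        (continuous_fst.comp continuous_snd).comp (continuous_co h)
      exact (isOpen_lt h1 h2).inter (hW.preimage ((continuous_yy h).comp (h1.prodMk h2)))
    have hxV : xx h (a, b) ∈ V := by
      refine ⟨?_, ?_⟩
      · change (co h (xx h (a, b))).1 < (co h (xx h (a, b))).2.1
        rw [co_xx h hab.le hb]
        exact hab
      · change yy h ((co h (xx h (a, b))).1, (co h (xx h (a, b))).2.1) ∈ W
        rw [co_xx h hab.le hb]
        exact hmem
    obtain ⟨p, hp, hpV, hne⟩ := hx.2 V hV hxV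
    set a' := (co h p).1 with ha'
    set b' := (co h p).2.1 with hb'
    have hlt : a' < b' := hpV.1
    have hc : b' ≤ ω₁ ∧ (co h p).2.2 = ω₁ := by
      rcases co_mem h p with h3 | h3
      · exact ⟨h3.2.1, h3.2.2⟩
      · exact absurd h3.1 hlt.ne
    have hpx : p = xx h (a', b') := by
      apply co_inj h
      rw [co_xx h hlt.le hc.1]
      ext1
      · rfl
      · ext1
        · rfl
        · exact hc.2
    refine ⟨yy h (a', b'), ih a' b' hlt hc.1 (hpx ▸ hp), hpV.2, fun heq => hne ?_⟩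
    have h4 := congrArg (co h) heq
    rw [co_yy h hlt.le hc.1, co_yy h hab.le hb] at h4
    have h5 : a' = a := congrArg Prod.fst h4
    have h6 : b' = b := congrArg (fun t => t.2.2) h4
    rw [hpx, h5, h6]

theorem L1 {W : Set X} (hW : IsOpen W) {a b : Ordinal.{0}} (hb : 0 < b) (hm : xx h (a, b) ∈ W) :
    ∃ g < b, ∀ v, g < v → v ≤ b → xx h (a, v) ∈ W := by
  have h1 : (fun v => xx h (a, v)) ⁻¹' W ∈ 𝓝 b := by
    apply (hW.preimage ((continuous_xx h).comp (by fun_prop : Continuous fun v => (a, v)))).mem_nhds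
    exact hm
  obtain ⟨g, hg, hs⟩ := exists_Ioc_subset_of_mem_nhds h1 ⟨0, hb⟩
  exact ⟨g, hg, fun v h2 h3 => hs ⟨h2, h3⟩⟩

theorem L2 {W : Set X} (hW : IsOpen W) {a b : Ordinal.{0}} (ha : 0 < a) (hm : xx h (a, b) ∈ W) :
    ∃ g < a, ∀ v, g < v → v ≤ a → xx h (v, b) ∈ W := by
  have h1 : (fun v => xx h (v, b)) ⁻¹' W ∈ 𝓝 a := by
    apply (hW.preimage ((continuous_xx h).comp (by fun_prop : Continuous fun v => (v, b)))).mem_nhds
    exact hm
  obtain ⟨g, hg, hs⟩ := exists_Ioc_subset_of_mem_nhds h1 ⟨0, ha⟩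
  exact ⟨g, hg, fun v h2 h3 => hs ⟨h2, h3⟩⟩

theorem L3 {W : Set X} (hW : IsOpen W) {z : Ordinal.{0}} (hz : 0 < z) (hm : xx h (z, z) ∈ W) :
    ∃ g < z, ∀ u v, g < u → u ≤ z → g < v → v ≤ z → xx h (u, v) ∈ W := by
  have h1 : (xx h) ⁻¹' W ∈ 𝓝 (z, z) := (hW.preimage (continuous_xx h)).mem_nhds hm
  rw [nhds_prod_eq, Filter.mem_prod_iff] at h1
  obtain ⟨s, hs, t, ht, hst⟩ := h1
  obtain ⟨g, hg, hsg⟩ := exists_Ioc_subset_of_mem_nhds hs ⟨0, hz⟩
  obtain ⟨g', hg', htg⟩ := exists_Ioc_subset_of_mem_nhds ht ⟨0, hz⟩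
  refine ⟨max g g', max_lt hg hg', fun u v h2 h3 h4 h5 => hst ⟨?_, ?_⟩⟩
  · exact hsg ⟨lt_of_le_of_lt (le_max_left _ _) h2, h3⟩
  · exact htg ⟨lt_of_le_of_lt (le_max_right _ _) h4, h5⟩

theorem L4 {W : Set X} (hW : IsOpen W) {a c : Ordinal.{0}} (hc : 0 < c) (hm : yy h (a, c) ∈ W) :
    ∃ g < c, ∀ v, g < v → v ≤ c → yy h (a, v) ∈ W := by
  have h1 : (fun v => yy h (a, v)) ⁻¹' W ∈ 𝓝 c := by
    apply (hW.preimage ((continuous_yy h).comp (by fun_prop : Continuous fun v => (a, v)))).mem_nhds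
    exact hm
  obtain ⟨g, hg, hs⟩ := exists_Ioc_subset_of_mem_nhds h1 ⟨0, hc⟩
  exact ⟨g, hg, fun v h2 h3 => hs ⟨h2, h3⟩⟩

theorem core : ¬ CanonicallySkula X := by
  rintro ⟨U, hU, hcan⟩
  have hT1 : T1Space X := h.t1Space
  have hlim : ∀ x < (ω₁ : Ordinal.{0}), x + 1 < ω₁ := fun x hx => by
    have := (Cardinal.isSuccLimit_omega 1).succ_lt hx
    rwa [Order.succ_eq_add_one] at this
  -- Step 1
  have step1 : ∀ a : Ordinal.{0}, ∃ γ : Ordinal.{0}, a < ω₁ → (γ < ω₁ ∧ ∀ β < ω₁, ∃ b, β < b ∧ b < ω₁ ∧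
      ∀ v, a ≤ v → γ < v → v ≤ b → xx h (a, v) ∈ U (xx h (a, b))) := by
    intro a
    by_cases ha : a < ω₁
    swap
    · exact ⟨0, fun h' => absurd h' ha⟩
    by_contra hcon
    push Not at hcon
    have h1 : ∀ γ : Ordinal.{0}, ∃ β : Ordinal.{0}, γ < ω₁ → (β < ω₁ ∧ ∀ b, β < b → b < ω₁ →
        ∃ v, a ≤ v ∧ γ < v ∧ v ≤ b ∧ xx h (a, v) ∉ U (xx h (a, b))) := by
      intro γ
      by_cases hγ : γ < ω₁
      · obtain ⟨β, hβ⟩ := (hcon γ).2 hγ
        exact ⟨β, fun _ => hβ⟩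
      · exact ⟨0, fun h' => absurd h' hγ⟩
    choose H hH using h1
    obtain ⟨b, hb, hab, hs, hcl⟩ := exists_closure (fun x _ => H x) (fun x hx _ _ => (hH x hx).1) ha
    have hb0 : 0 < b := lt_of_le_of_lt zero_le hab
    obtain ⟨g, hg, hg'⟩ := L1 h (hU.clopen (xx h (a, b))).isOpen hb0 (hU.mem _)
    obtain ⟨v, hv1, hv2, hv3, hv4⟩ := (hH g (hg.trans hb)).2 b (hcl g hg 0 hb0) hb
    exact hv4 (hg' v hv2 hv3)
  choose G hG using step1
  have hT : ∀ a β : Ordinal.{0}, ∃ b : Ordinal.{0}, a < ω₁ → β < ω₁ → (β < b ∧ b < ω₁ ∧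
      ∀ v, a ≤ v → G a < v → v ≤ b → xx h (a, v) ∈ U (xx h (a, b))) := by
    intro a β
    by_cases ha : a < ω₁
    · by_cases hβ : β < ω₁
      · obtain ⟨b, hb⟩ := (hG a ha).2 β hβ
        exact ⟨b, fun _ _ => hb⟩
      · exact ⟨0, fun _ h' => absurd h' hβ⟩
    · exact ⟨0, fun h' => absurd h' ha⟩
  choose T hT using hT
  -- closure points
  let Cl : Ordinal.{0} → Prop := fun b => b < ω₁ ∧ 0 < b ∧ (∀ a < b, a + 1 < b) ∧
    ∀ a < b, G a < b ∧ ∀ β < b, T a β < b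
  have hCl : ∀ a0 < (ω₁ : Ordinal.{0}), ∃ b, a0 < b ∧ Cl b := by
    intro a0 ha0
    obtain ⟨b, hb, hab, hs, hcl⟩ := exists_closure (fun x y => max (G x) (T x y))
      (fun x hx y hy => max_lt (hG x hx).1 (hT x y hx hy).2.1) ha0
    have hb0 : 0 < b := lt_of_le_of_lt zero_le hab
    refine ⟨b, hab, hb, hb0, fun a ha => ?_, fun a ha => ⟨?_, fun β hβ => ?_⟩⟩
    · have := hs a ha
      rwa [Order.succ_eq_add_one] at this
    · exact lt_of_le_of_lt (le_max_left _ _) (hcl a ha 0 hb0)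
    · exact lt_of_le_of_lt (le_max_right _ _) (hcl a ha β hβ)
  -- Step 2
  have step2 : ∀ b, Cl b → ∀ a < b, ∀ v, a ≤ v → G a < v → v ≤ b →
      xx h (a, v) ∈ U (xx h (a, b)) := by
    intro b hb a hab v hav hGv hvb
    rcases hvb.eq_or_lt with rfl | hvb
    · exact hU.mem _
    obtain ⟨g, hg, hg'⟩ := L1 h (hU.clopen (xx h (a, b))).isOpen hb.2.1 (hU.mem _)
    have haω := hab.trans hb.1
    have hm : max g v < b := max_lt hg hvb
    obtain ⟨h1, h2, h3⟩ := hT a (max g v) haω (hm.trans hb.1)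
    have h4 : T a (max g v) < b := (hb.2.2.2 a hab).2 _ hm
    have h5 : xx h (a, T a (max g v)) ∈ U (xx h (a, b)) :=
      hg' _ (lt_of_le_of_lt (le_max_left _ _) h1) h4.le
    exact hU.trans _ _ h5 (h3 v hav hGv ((le_max_right _ _).trans h1.le))
  obtain ⟨z, -, hz⟩ := hCl 0 (Ordinal.omega_pos 1)
  -- Step 4
  have step4 : ∀ b, Cl b → z < b → xx h (z, z) ∈ U (xx h (z, b)) := by
    intro b hb hzb
    by_contra hcon
    obtain ⟨g1, hg1, hg1'⟩ := L3 h (W := (U (xx h (z, b)))ᶜ)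
      (hU.clopen (xx h (z, b))).isClosed.isOpen_compl hz.2.1 hcon
    obtain ⟨g2, hg2, hg2'⟩ := L2 h (hU.clopen (xx h (z, b))).isOpen hz.2.1 (hU.mem _)
    set a := max g1 g2 + 1 with ha
    have haz : a < z := hz.2.2.1 _ (max_lt hg1 hg2)
    have hGa : G a < z := (hz.2.2.2 a haz).1
    set v := max a (G a + 1) with hv
    have hvz : v < z := max_lt haz (hz.2.2.1 _ hGa)
    have hag1 : g1 < a := lt_of_le_of_lt (le_max_left _ _) (Order.lt_add_one_iff.2 le_rfl)
    have hag2 : g2 < a := lt_of_le_of_lt (le_max_right _ _) (Order.lt_add_one_iff.2 le_rfl)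
    have h1 : xx h (a, b) ∈ U (xx h (z, b)) := hg2' a hag2 haz.le
    have h2 : xx h (a, v) ∈ U (xx h (a, b)) := step2 b hb a (haz.trans hzb) v (le_max_left _ _)
      (lt_of_lt_of_le (Order.lt_add_one_iff.2 le_rfl) (le_max_right _ _)) (hvz.trans hzb).le
    exact hg1' a v hag1 haz.le (lt_of_lt_of_le hag1 (le_max_left _ _)) hvz.le (hU.trans _ _ h1 h2)
  -- Step 5
  obtain ⟨b, hzb, hb⟩ := hCl z hz.1
  obtain ⟨α, hα1, hα2⟩ := height h (xx h (z, b))
  have step5 : ∀ b', Cl b' → b < b' → xx h (z, b') ∈ cb X α := by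
    intro b' hb' hbb'
    obtain ⟨α', hα1', hα2'⟩ := height h (xx h (z, b'))
    by_contra hcon
    have hle : α' ≤ α := by
      by_contra hlt
      exact hcon (cb_antitone (not_le.1 hlt).le hα1')
    have h1 : xx h (z, b) ∈ U (xx h (z, b')) :=
      step2 b' hb' z (hzb.trans hbb') b hzb.le (hb.2.2.2 z hzb).1 hbb'.le
    have h2 := hcan _ α' hα1' hα2' _ h1 (cb_antitone hle hα1)
    have h3 := congrArg (co h) h2
    rw [co_xx h hzb.le hb.1.le, co_xx h (hzb.trans hbb').le hb'.1.le] at h3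
    exact hbb'.ne (congrArg (fun t => t.2.1) h3)
  have h6 : yy h (z, ω₁) ∈ cb X α := by
    by_contra hcon
    obtain ⟨g, hg, hg'⟩ := L4 h (W := (cb X α)ᶜ) (isClosed_cb α).isOpen_compl
      (Ordinal.omega_pos 1) hcon
    obtain ⟨b', hb1, hb2⟩ := hCl (max b g) (max_lt hb.1 hg)
    have hbb' : b < b' := lt_of_le_of_lt (le_max_left _ _) hb1
    exact hg' b' (lt_of_le_of_lt (le_max_right _ _) hb1) hb2.1.le
      (transfer h α z b' (hzb.trans hbb') hb2.1.le (step5 b' hb2 hbb'))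
  rw [← xx_eq_yy h hz.1.le] at h6
  have h7 := hcan _ α hα1 hα2 _ (step4 b hb hzb) h6
  have h8 := congrArg (co h) h7
  rw [co_xx h le_rfl hz.1.le, co_xx h hzb.le hb.1.le] at h8
  exact hzb.ne (congrArg (fun t => t.2.1) h8)

end

end Pool.Agent.R736.SK
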